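import Pool.Agent.Q2N.Stmts

/-!
# Q2N, module IND: independence of the powers of translates
-/

set_option autoImplicit false

namespace Pool.Agent.Q2N.H20

variable {F K : Type} [Field F] [Field K] [Algebra F K]

/-- a pole of `u` which is the first one in its orbit under `τ^m` -/
theorem first_pole (S : Dat F K) {u : K} (hu : ∀ c : F, algebraMap F K c ≠ u) {m : ℤ}
    (hm : m ≠ 0) : ∃ q : S.X, S.v q u < 0 ∧
      ∀ k : ℕ, 0 ≤ S.v ((S.τ ^ (-(m * ((k : ℤ) + 1)))) q) u := by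
  have hu0 : u ≠ 0 := by
    rintro rfl
    exact hu 0 (map_zero _)
  obtain ⟨p, hp⟩ : ∃ p, S.v p u < 0 := by
    by_contra hc
    push Not at hc
    obtain ⟨c, hc'⟩ := S.const u hc
    exact hu c hc'
  have hfin : {k : ℕ | S.v ((S.τ ^ (-(m * (k : ℤ)))) p) u < 0}.Finite := by
    refine Set.Finite.of_finite_image (f := fun k : ℕ => (S.τ ^ (-(m * (k : ℤ)))) p)
      ((S.fin u hu0).subset ?_) ?_
    · rintro x ⟨k, hk, rfl⟩
      exact (ne_of_lt hk)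
    · intro k _ k' _ hkk
      have h1 : (S.τ ^ (-(m * (k : ℤ)))) p = (S.τ ^ (-(m * (k' : ℤ)))) p := hkk
      have h2 : (S.τ ^ (m * (k' : ℤ) + -(m * (k : ℤ)))) p = p := by
        rw [zpow_add, Equiv.Perm.mul_apply, h1, ← Equiv.Perm.mul_apply, ← zpow_add,
          add_neg_cancel, zpow_zero]
        rfl
      have h3 := S.free p _ h2
      have h4 : m * ((k' : ℤ) - k) = 0 := by linarith
      rcases mul_eq_zero.1 h4 with h5 | h5
      · exact absurd h5 hm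
      · have : (k : ℤ) = k' := by linarith
        exact_mod_cast this
  have hne : {k : ℕ | S.v ((S.τ ^ (-(m * (k : ℤ)))) p) u < 0}.Nonempty := by
    refine ⟨0, ?_⟩
    rw [Set.mem_ofPred_eq]
    simpa using hp
  obtain ⟨k, hk, hmax⟩ := hfin.exists_maximal hne
  refine ⟨(S.τ ^ (-(m * (k : ℤ)))) p, hk, ?_⟩
  intro j
  by_contra hc
  push Not at hc
  rw [← Equiv.Perm.mul_apply, ← zpow_add] at hc
  have h1 : -(m * ((j : ℤ) + 1)) + -(m * (k : ℤ)) = -(m * ((k + j + 1 : ℕ) : ℤ)) := by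
    push_cast
    ring
  rw [h1] at hc
  have h2 := hmax (y := k + j + 1) hc (by omega)
  omega

theorem ind : IndStmt := by
  intro F K _ _ _ S u hu m hm n
  obtain ⟨q, hq, hreg⟩ := first_pole S hu hm
  rw [Fintype.linearIndependent_iff]
  intro g hg
  by_contra hc
  push Not at hc
  obtain ⟨q0, hq0⟩ := hc
  classical
  -- the maximal index
  obtain ⟨M, hM, hmax⟩ := Finset.exists_max_image
    (Finset.univ.filter fun x : Fin (n + 1) × Fin n => g x ≠ 0) (fun x => toLex x)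
    ⟨q0, Finset.mem_filter.2 ⟨Finset.mem_univ _, hq0⟩⟩
  rw [Finset.mem_filter] at hM
  have hM0 := hM.2
  -- the point
  obtain ⟨P, hP⟩ : ∃ P : S.X, P = (S.τ ^ (-(m * ((M.1 : ℕ) : ℤ)))) q := ⟨_, rfl⟩
  -- orders at `P`
  have hv : ∀ i : ℕ, S.v P ((S.σ ^ (m * (i : ℤ))) u) =
      S.v ((S.τ ^ (m * (i : ℤ) - m * ((M.1 : ℕ) : ℤ))) q) u := by
    intro i
    rw [v_σ_zpow, hP, ← Equiv.Perm.mul_apply, ← zpow_add, ← sub_eq_add_neg]
  have hvM : S.v P ((S.σ ^ (m * ((M.1 : ℕ) : ℤ))) u) = S.v q u := by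
    rw [hv, sub_self, zpow_zero]
    rfl
  have hvl : ∀ i : ℕ, i < (M.1 : ℕ) → 0 ≤ S.v P ((S.σ ^ (m * (i : ℤ))) u) := by
    intro i hi
    rw [hv]
    obtain ⟨k, hk⟩ : ∃ k : ℕ, (M.1 : ℕ) = i + k + 1 := ⟨(M.1 : ℕ) - i - 1, by omega⟩
    have := hreg k
    have h1 : m * (i : ℤ) - m * ((M.1 : ℕ) : ℤ) = -(m * ((k : ℤ) + 1)) := by
      rw [hk]
      push_cast
      ring
    rw [h1]
    exact this
  obtain ⟨z, hz⟩ : ∃ z : ℤ, S.v q u = (z : WithTop ℤ) := by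
    obtain ⟨z, hz⟩ := WithTop.ne_top_iff_exists.1 (ne_of_lt (hq.trans (WithTop.coe_lt_top 0)))
    exact ⟨z, hz.symm⟩
  have hz0 : z < 0 := by
    rw [hz] at hq
    exact_mod_cast hq
  have hsm : ∀ x : Fin (n + 1) × Fin n, g x ≠ 0 →
      S.v P (g x • ((S.σ ^ (m * ((x.1 : ℕ) : ℤ))) u) ^ ((x.2 : ℕ) + 1)) =
        ((x.2 : ℕ) + 1) • S.v P ((S.σ ^ (m * ((x.1 : ℕ) : ℤ))) u) := by
    intro x hx
    rw [Algebra.smul_def, AddValuation.map_mul, S.v_const _ _ hx, zero_add, AddValuation.map_pow]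
  have hgM : S.v P (g M • ((S.σ ^ (m * ((M.1 : ℕ) : ℤ))) u) ^ ((M.2 : ℕ) + 1)) =
      (((((M.2 : ℕ) + 1 : ℕ) : ℤ) * z : ℤ) : WithTop ℤ) := by
    rw [hsm M hM0, hvM, hz]
    rw [← WithTop.coe_nsmul, nsmul_eq_mul]
  have hlt : ∀ x ∈ (Finset.univ.erase M : Finset (Fin (n + 1) × Fin n)),
      (((((M.2 : ℕ) + 1 : ℕ) : ℤ) * z : ℤ) : WithTop ℤ) <
        S.v P (g x • ((S.σ ^ (m * ((x.1 : ℕ) : ℤ))) u) ^ ((x.2 : ℕ) + 1)) := by
    intro x hx
    rw [Finset.mem_erase] at hx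
    by_cases hgx : g x = 0
    · rw [hgx, zero_smul, AddValuation.map_zero]
      exact WithTop.coe_lt_top _
    · rw [hsm x hgx]
      have h1 := hmax x (Finset.mem_filter.2 ⟨Finset.mem_univ _, hgx⟩)
      rw [Prod.Lex.toLex_le_toLex] at h1
      rcases h1 with h1 | ⟨h1, h2⟩
      · have h3 := hvl (x.1 : ℕ) (by exact_mod_cast h1)
        have h4 : (0 : WithTop ℤ) ≤ ((x.2 : ℕ) + 1) • S.v P ((S.σ ^ (m * ((x.1 : ℕ) : ℤ))) u) :=
          nsmul_nonneg h3 _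
        refine lt_of_lt_of_le ?_ h4
        have : (((M.2 : ℕ) + 1 : ℕ) : ℤ) * z < 0 :=
          mul_neg_of_pos_of_neg (by positivity) hz0
        exact_mod_cast this
      · have h3 : (x.2 : ℕ) < (M.2 : ℕ) := by
          rcases lt_or_eq_of_le h2 with h | h
          · exact_mod_cast h
          · exact absurd (Prod.ext h1 h) hx.1
        rw [h1, hvM, hz, ← WithTop.coe_nsmul, nsmul_eq_mul]
        have : (((M.2 : ℕ) + 1 : ℕ) : ℤ) * z < (((x.2 : ℕ) + 1 : ℕ) : ℤ) * z := by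
          have h4 : (((x.2 : ℕ) + 1 : ℕ) : ℤ) < (((M.2 : ℕ) + 1 : ℕ) : ℤ) := by
            exact_mod_cast Nat.succ_lt_succ h3
          nlinarith
        exact_mod_cast this
  have hsum := AddValuation.map_lt_sum (v := S.v P) (WithTop.coe_ne_top) hlt
  have h5 : g M • ((S.σ ^ (m * ((M.1 : ℕ) : ℤ))) u) ^ ((M.2 : ℕ) + 1) =
      -∑ x ∈ (Finset.univ.erase M : Finset (Fin (n + 1) × Fin n)),
        g x • ((S.σ ^ (m * ((x.1 : ℕ) : ℤ))) u) ^ ((x.2 : ℕ) + 1) := by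
    rw [← Finset.add_sum_erase _ _ (Finset.mem_univ M)] at hg
    exact eq_neg_of_add_eq_zero_left hg
  rw [h5, AddValuation.map_neg] at hgM
  rw [hgM] at hsum
  exact lt_irrefl _ hsum

end Pool.Agent.Q2N.H20
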